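import Pool.Agent.Run7.h802.Cv18

/-!
MP_4d1008_ag: regular models, proper over `ℤ`, in every dimension, of the schemes birational to the
quotient of a product of curves `C 0 × ... × C n` over a finite field of characteristic `p` by a
finite group `G` which acts on each curve, if the fixed points of the elements of `G` on the product
are isolated and the orders of the inertia groups are not divisible by `p ^ 2`.

The wild inertia groups are `ℤ / p` and the inertia groups are semidirect products of `ℤ / p` and a
cyclic group of order prime to `p`, with an arbitrary (for example faithful) action of the cyclic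
group on `ℤ / p`. There is no condition on the ramification numbers `m i` of `ℤ / p` at the points of
the curves `C i`. If the order of `G` is not divisible by `p ^ 2` and `G` acts faithfully on each
curve, then all conditions are satisfied. An example with a larger group: `G = SL 2 (F p)`, acting
diagonally on the powers of the curve `x * y ^ p - x ^ p * y = z ^ (p + 1)`, with inertia groups of
order `p * (p - 1)` at the points `z = 0`; `SL 2 (F q)` for a power `q` of `p` is excluded by the
second condition.

The proof. The product is blown up at the points with nontrivial inertia groups. At a point where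
the wild inertia group has the ramification numbers `m i`, the uniformizers `t i` have the weights
`w i = ∏ j ≠ i, m j`; at the points with tame inertia groups the weights are `1`. The centres and the
weights are stable under `G`: the weighted blowup is defined by the filtration of the coordinate
rings by the weighted orders at these points. The extended Rees algebra of this filtration is a
regular graded ring. The generator `τ` of the wild inertia group raises the weights by `M = ∏ m j`,
as `w i * m i = M` does not depend on `i`, and the leading form of `τ - 1` is
`∑ i, c i * t i ^ (m i + 1) ∂ / ∂ t i`, `c i ≠ 0`, which has no zeros outside the vertex. So the ideal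
of the fixed points of `τ` is locally principal outside the vertex. The elements of the inertia group
which are not in the wild inertia group have no fixed points outside the vertex. The ring of
invariants is therefore regular outside the vertex, and the atlas of the quotients of the charts by
the multiplicative group has a regular projective model by the library of the starting files
(weighted blowups which reduce the orders of the stabilisers).

The diagonal actions of `ℤ / p` on products of curves are in the library of the starting files
(`Pool.Agent.H920R2.curves_model`, over perfect fields).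

helper802, with the library of the starting files: helpers 223, 279, 824, 864, 918, 920, 639 and
others.
-/

set_option autoImplicit false

open AlgebraicGeometry CategoryTheory

namespace Pool.Agent.Results.MP_4d1008_ag.CurveProductGroups

/-- The valuation ring `V` of the function field `E` of a curve over `k` is the local ring of a
closed point of the curve: it contains the constants, and it is not the field. -/
def IsPoint (k : Type) {E : Type} [Field k] [Field E] [Algebra k E] (V : ValuationSubring E) :
    Prop :=
  (∀ c : k, algebraMap k E c ∈ V) ∧ V ≠ ⊤

/-- The automorphism `g` is in the inertia group of the points of the product of the curves over the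
points `V i` of the curves: for all `i` it maps the local ring `V i` to itself and acts trivially on
its residue field. -/
def IsInertial {k L : Type} [Field k] [Field L] [Algebra k L] {n : ℕ}
    (E : Fin (n + 1) → IntermediateField k L) (V : ∀ i, ValuationSubring (E i))
    (g : L ≃ₐ[k] L) : Prop :=
  ∀ i, ∀ x ∈ V i, ∃ y : E i, (y : L) = g x - x ∧ (V i).valuation y < 1

/-- `L` is the function field of the product over `k` of the curves with the function fields
`E 0, ..., E n`, and the finite group `G` of automorphisms of `L` acts on each of the curves. If
`g ≠ 1` in `G` fixes a point of the product (it is in the inertia group), then it is not the identity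
on any of the curves (so the fixed points of `g` are isolated), and the orders of the inertia groups
of the points are not divisible by `p ^ 2`. -/
structure IsCurveProduct (p : ℕ) {k L : Type} [Field k] [Field L] [Algebra k L] {n : ℕ}
    (E : Fin (n + 1) → IntermediateField k L) (G : Subgroup (L ≃ₐ[k] L)) : Prop where
  finiteType : ∀ i, Algebra.EssFiniteType k (E i)
  dimension : ∀ i, Algebra.trdeg k (E i) = 1
  disjoint : ∀ (S : Finset (Fin (n + 1))) (i : Fin (n + 1)), i ∉ S →
    (⨆ j ∈ S, (E j).toSubalgebra).LinearDisjoint (E i).toSubalgebra
  generate : ⨆ i, E i = ⊤
  finite : Finite G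
  stable : ∀ g ∈ G, ∀ i, ∀ x ∈ E i, g x ∈ E i
  isolated : ∀ V : ∀ i, ValuationSubring (E i), (∀ i, IsPoint k (V i)) →
    ∀ g ∈ G, g ≠ 1 → IsInertial E V g → ∀ i, ∃ x ∈ E i, g x ≠ x
  wild : ∀ V : ∀ i, ValuationSubring (E i), (∀ i, IsPoint k (V i)) →
    ¬ p ^ 2 ∣ Nat.card {g : L ≃ₐ[k] L // g ∈ G ∧ IsInertial E V g}

/-- Let `L` be the function field of a product of curves over the finite field `k` of characteristic
`p`, with an action of the finite group `G` with isolated fixed points and with inertia groups of
order not divisible by `p ^ 2`. Then every integral scheme `Y` of finite type over the integers whose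
function field is the field `F` of the invariants of `G` in `L` has a regular model `X'`, proper over
the integers. -/
theorem result :
    ∀ (p : ℕ), p.Prime → ∀ (k L : Type) [Field k] [Finite k] [CharP k p] [Field L] [Algebra k L]
      (n : ℕ) (E : Fin (n + 1) → IntermediateField k L) (G : Subgroup (L ≃ₐ[k] L)),
      IsCurveProduct p E G →
      -- the field of invariants
      ∀ (F : Subfield L), (∀ x, x ∈ F ↔ ∀ g ∈ G, g x = x) →
      -- every integral scheme of finite type over the integers with the function field `F`
      ∀ (Y : Scheme.{0}) (_ : IsIntegral Y) (s : Y ⟶ Spec (CommRingCat.of ℤ)),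
      LocallyOfFiniteType s → QuasiCompact s → Nonempty (Y.functionField ≃+* F) →
      ∃ (X' : Scheme.{0}) (_ : IsIntegral X') (g : X' ⟶ Spec (CommRingCat.of ℤ)),
        IsProper g ∧
        (∀ x : X',
          (((Module.finrank (IsLocalRing.ResidueField (X'.presheaf.stalk x))
              (IsLocalRing.CotangentSpace (X'.presheaf.stalk x)) : ℕ∞)) : WithBot ℕ∞)
            = ringKrullDim (X'.presheaf.stalk x)) ∧
        Nonempty (X'.functionField ≃+* Y.functionField) := by
  intro p hp k L _ _ _ _ _ n E G hG F hF Y _ s _ _ ⟨i⟩
  have hpf : Fact p.Prime := ⟨hp⟩
  have hfin := hG.finite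
  have hft := hG.finiteType
  -- the actions on the curves
  let ρ : ∀ i, G →* (E i ≃ₐ[k] E i) := fun i =>
    { toFun := fun g =>
        { toFun := fun x => ⟨(g : L ≃ₐ[k] L) x, hG.stable g g.2 i x x.2⟩
          invFun := fun x => ⟨((g⁻¹ : G) : L ≃ₐ[k] L) x, hG.stable (g⁻¹ : G) (g⁻¹ : G).2 i x x.2⟩
          left_inv := fun x => by
            apply Subtype.ext
            change ((g⁻¹ : G) : L ≃ₐ[k] L) ((g : L ≃ₐ[k] L) x) = x
            rw [← AlgEquiv.mul_apply, ← Subgroup.coe_mul, inv_mul_cancel]
            rfl
          right_inv := fun x => by
            apply Subtype.ext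
            change (g : L ≃ₐ[k] L) (((g⁻¹ : G) : L ≃ₐ[k] L) x) = x
            rw [← AlgEquiv.mul_apply, ← Subgroup.coe_mul, mul_inv_cancel]
            rfl
          map_mul' := fun x y => Subtype.ext (map_mul (g : L ≃ₐ[k] L) (x : L) (y : L))
          map_add' := fun x y => Subtype.ext (map_add (g : L ≃ₐ[k] L) (x : L) (y : L))
          commutes' := fun c => Subtype.ext ((g : L ≃ₐ[k] L).commutes c) }
      map_one' := rfl
      map_mul' := fun g h => rfl }
  have hρ : ∀ (g : G) i (x : E i), ((ρ i g x : E i) : L) = (g : L ≃ₐ[k] L) x := fun g i x => rfl
  have hin : ∀ (V : ∀ i, ValuationSubring (E i)) (g : G), g ∈ Run7.h802.Cv.inr ρ V ↔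
      IsInertial E V g := by
    intro V g
    rw [Run7.h802.Cv.mem_inr]
    constructor
    · intro h i x hx
      exact ⟨ρ i g x - x, rfl, h i x hx⟩
    · intro h i x hx
      obtain ⟨y, hy, hyV⟩ := h i x hx
      have h1 : y = ρ i g x - x := Subtype.ext hy
      rwa [← h1]
  have hpt : ∀ i (V : ValuationSubring (E i)), Run7.h802.Cv.Pt k V → IsPoint k V :=
    fun i V h => ⟨h.const, h.ne⟩
  refine Run7.h802.Cv.curve_model (e := fun i => (E i).val) (ρ := ρ) (G := G) p hG.dimension ?_ ?_
    G.subtype (fun g i x => rfl) ?_ ?_ F ?_ i
  · intro S i hi
    have h1 := hG.disjoint S i hi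
    simp only [IntermediateField.range_val]
    exact h1
  · simp only [IntermediateField.fieldRange_val]
    exact hG.generate
  · intro V hV g hg hg1 i h1
    have hg1' : (g : L ≃ₐ[k] L) ≠ 1 := fun h => hg1 (Subtype.ext h)
    obtain ⟨x, hx, hgx⟩ := hG.isolated V (fun i => hpt i _ (hV i)) g g.2 hg1' ((hin V g).1 hg) i
    apply hgx
    have h2 : ρ i g ⟨x, hx⟩ = ⟨x, hx⟩ := by rw [h1]; rfl
    exact congrArg Subtype.val h2
  · intro V hV
    have h1 := hG.wild V fun i => hpt i _ (hV i)
    have h2 : Nat.card (Run7.h802.Cv.inr ρ V) =
        Nat.card {g : L ≃ₐ[k] L // g ∈ G ∧ IsInertial E V g} := by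
      refine Nat.card_congr
        { toFun := fun g => ⟨(g : G), (g : G).2, (hin V g).1 g.2⟩
          invFun := fun g => ⟨⟨g, g.2.1⟩, (hin V ⟨g, g.2.1⟩).2 g.2.2⟩
          left_inv := fun g => rfl
          right_inv := fun g => rfl }
    rwa [h2]
  · intro x
    rw [hF]
    exact ⟨fun h g => h g g.2, fun h g hg => h ⟨g, hg⟩⟩

end Pool.Agent.Results.MP_4d1008_ag.CurveProductGroups
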