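import Pool.Agent.Run7.h802.Ct6
import Pool.Agent.W418.Z.Reg

/-!
MP_4d1008_ag: regular proper models over `ℤ`, in all dimensions, of the towers of Artin-Schreier
coverings of any length over clean functions on a smooth projective variety `X` over a finite field of
characteristic `p` with a divisor with simple normal crossings, together with coverings by `p`-th
roots.

The functions `f 1, ..., f s` on `X` are clean: locally `f t = x ^ (n t) * h t` with `n t ≤ 0`, `x`
the local equations of the divisor, and at each point the logarithmic differentials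
`d (f t) / x ^ (n t)` of those `f t` which have a pole at the point are linearly independent. In the
starting results (CleanCovers, MixedCleanTowers on this problem) each `f t` can be used once: the
`i`-th function of a tower satisfies `z i ^ p - z i = f (σ i) + g i`, `σ` injective, where `g i` has
smaller poles, so over a point of `X` at most `dim X` of the coverings of the tower are wildly
ramified. Here the next step can be taken over the function `z` constructed in the step before:
`z' ^ p - z' = c * z ^ m + e`, where `c` is a constant, `p ∤ m` and `e` has smaller poles than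
`z ^ m`, and so on. For `m > 1` it is assumed that the zeros of `h t` are disjoint from the poles of
`f t`; this can be reached by blowing up intersections of the zeros of `h t` and components of the
divisor, since these are transversal.

Examples.

* `Q (z) = f`, where `f` is clean, for example a polynomial on the affine space of degree prime to `p`
  whose leading form defines a smooth hypersurface, and `Q` is a composition of polynomials
  `a * X ^ p - b * X` with `b / a = c ^ (p - 1)`, `c ≠ 0` in `k`: all separable additive polynomials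
  with zeros in `k`, for example `z ^ q - z = f` if `k` contains the field with `q` elements.
  For these coverings with Galois group `(ℤ / p) ^ r` the logarithmic differentials of all
  Artin-Schreier functions are proportional.

* Cyclic coverings of degree `p ^ 2`: `z ^ p - z = f`, `w ^ p - w = g - c (z)`, where `f` is clean and
  `f ≠ 0` on the poles, `c (z)` is the polynomial of the Witt vectors of length two, with the leading
  term `± z ^ (p ^ 2 - p + 1)`, and `g` is a function on `X` with smaller poles than
  `f ^ ((p ^ 2 - p + 1) / p)`. In the same way cyclic coverings of degree `p ^ n`.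

* Towers which are not Galois: `z (i + 1) ^ p - z (i + 1) = z i ^ (m i) + e i` with arbitrary
  `e i ∈ K (z 1, ..., z i)` of smaller poles.

* Several such towers over different `f t`, where the `e i` may contain all functions constructed
  before, and `p`-th roots of the functions `F u` (see `CleanData`) over them.

The proof. For one step `z ^ p - z = c * f ^ m + e` the library of the starting files constructs a
smooth model `M'` of `K (z)` as a divisor in a blowup of a line bundle over the model `M` of `K`, where
`z = x ^ μ * y`, such that `x` and `y` have simple normal crossings on the ambient space. New: on `M'`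
there is at each pole of `z` a logarithmic tangent vector which is vertical over `M`, on which the
differential of `z` does not vanish. So the functions `z` and `f t'`, `t' ≠ t`, are again clean on
`M'`; and the logarithmic tangent vectors of `M` on which all forms vanish can be lifted to such
vectors of `M'`, so the `F u` remain clean (`Run7.h802.Ct.step`).

helper802, with the library of the starting files: helpers 558, 214, 188, 176, 32, 356, 906, 29, 33,
369, 405, 368, 230, 191, 410, 435, 376, 382, 348, 135, 991, 366, 74, 305, 417, 440, 409, 174, 290,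
392, 352, 565, 335, 924, 337, 347, 479, 959, 727, 202, 22, 349, 715, 971, 90, 153, 418 and others.
-/

set_option autoImplicit false

open AlgebraicGeometry CategoryTheory Pool.Agent.W558

namespace Pool.Agent.Results.MP_4d1008_ag.IteratedCleanTowers

/-- The coordinate ring `k[H 0 / H j, ..., H N / H j]` of the chart `H j ≠ 0` of the projective
variety over `k` with the homogeneous coordinates `H 0, ..., H N` in a field `K`. -/
def chart (k : Type) {K : Type} [Field k] [Field K] [Algebra k K] {N : ℕ}
    (H : Fin (N + 1) → K) (j : Fin (N + 1)) : Subalgebra k K :=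
  Algebra.adjoin k (Set.range fun l => H l / H j)

/-- A tangent vector at the point `P : A → κ` of `Spec A`. -/
structure TangentVector {k A κ : Type} [Field k] [CommRing A] [Algebra k A] [Field κ]
    [Algebra k κ] (P : A →ₐ[k] κ) where
  /-- the derivation -/
  D : A →ₗ[k] κ
  leibniz : ∀ a b, D (a * b) = P a * D b + P b * D a

/-- A logarithmic tangent vector at the point `P : A → κ` of `Spec A` with the divisor
`x 1 * ... * x d = 0`: a tangent vector together with the values `e i` of `dx i / x i`. -/
structure LogTangentVector {k A κ : Type} [Field k] [CommRing A] [Algebra k A] [Field κ]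
    [Algebra k κ] (P : A →ₐ[k] κ) {d : ℕ} (x : Fin d → A) extends TangentVector P where
  /-- the values of `dx i / x i` -/
  e : Fin d → κ
  D_x : ∀ i, D (x i) = P (x i) * e i

/-- The value of the logarithmic differential form
`d (x ^ n * h) / x ^ n = dh + h * ∑ i, n i * dx i / x i` on the logarithmic tangent vector `v`. -/
def LogTangentVector.form {k A κ : Type} [Field k] [CommRing A] [Algebra k A] [Field κ]
    [Algebra k κ] {P : A →ₐ[k] κ} {d : ℕ} {x : Fin d → A} (v : LogTangentVector P x)
    (n : Fin d → ℤ) (h : A) : κ :=
  v.D h + P h * ∑ i, (n i : κ) * v.e i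

/-- A smooth projective variety over `k` with the function field `K` and a divisor with simple
normal crossings on it, with the components `1, ..., d`. -/
structure SmoothPair (k K : Type) [Field k] [Field K] [Algebra k K] (N d : ℕ) where
  /-- the homogeneous coordinates -/
  H : Fin (N + 1) → K
  H_ne : ∀ j, H j ≠ 0
  smooth : ∀ j, Algebra.Smooth k (chart k H j)
  isFractionRing : ∀ j, IsFractionRing (chart k H j) K
  /-- the local equations of the components of the divisor on the charts -/
  x : ∀ j, Fin d → chart k H j
  x_ne : ∀ j i, x j i ≠ 0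
  glue : ∀ j j' i, ∃ m : ℕ, (H j' / H j) ^ m * ((x j' i : K) / x j i) ∈ chart k H j
  snc : ∀ j (κ : Type) [Field κ] [Algebra k κ] (P : chart k H j →ₐ[k] κ) (i : Fin d),
    P (x j i) = 0 → ∃ D : TangentVector P, D.D (x j i) = 1 ∧
      ∀ l, l ≠ i → P (x j l) = 0 → D.D (x j l) = 0

/-- The point `P` of the chart `j` is a pole of `x ^ n`: it lies on a component `i` of the divisor
with `n i < 0`. -/
def IsPole {k K : Type} [Field k] [Field K] [Algebra k K] {N d : ℕ} (X : SmoothPair k K N d)
    (n : Fin d → ℤ) {j : Fin (N + 1)} {κ : Type} [Field κ] [Algebra k κ]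
    (P : chart k X.H j →ₐ[k] κ) : Prop :=
  ∃ i, n i < 0 ∧ P (X.x j i) = 0

/-- The functions `f t` (used in the Artin-Schreier equations) and the functions `F u` (whose `p`-th
roots are considered) are jointly clean: on the chart `j` we have `f t = x ^ (n t) * h` with exponents
`n t i ≤ 0`, and `F u = b ^ p + x ^ (m u) * c`, where the exponents do not depend on the chart,
`b ∈ K`, and `h, c` are regular functions, such that, at every point `P`, the values at `P` of the
logarithmic differential forms `d (x ^ (n t) * h) / x ^ (n t)`, for those `t` such that `P` is a pole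
of `x ^ (n t)`, and of the logarithmic differential forms `d (x ^ (m u) * c) / x ^ (m u)`, for all
`u`, are linearly independent (as linear functions of the logarithmic tangent vectors). -/
structure CleanData (p : ℕ) {k K : Type} [Field k] [Field K] [Algebra k K] {N d s q : ℕ}
    (X : SmoothPair k K N d) (f : Fin s → K) (F : Fin q → K) where
  /-- the exponents of the `f t` -/
  n : Fin s → Fin d → ℤ
  /-- the functions `h` on the charts -/
  h : ∀ j, Fin s → chart k X.H j
  /-- the exponents of the `F u` -/
  m : Fin q → Fin d → ℤ
  /-- the functions `b` on the charts -/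
  b : Fin (N + 1) → Fin q → K
  /-- the functions `c` on the charts -/
  c : ∀ j, Fin q → chart k X.H j
  n_nonpos : ∀ t i, n t i ≤ 0
  eq_f : ∀ j t, f t = (∏ i, (X.x j i : K) ^ n t i) * h j t
  eq_F : ∀ j u, F u = b j u ^ p + (∏ i, (X.x j i : K) ^ m u i) * c j u
  clean_f : ∀ j (κ : Type) [Field κ] [Algebra k κ] (P : chart k X.H j →ₐ[k] κ) (t : Fin s),
    IsPole X (n t) P → ∃ v : LogTangentVector P (X.x j), v.form (n t) (h j t) ≠ 0 ∧
      ∀ t', t' ≠ t → IsPole X (n t') P → v.form (n t') (h j t') = 0
  clean_F : ∀ j (κ : Type) [Field κ] [Algebra k κ] (P : chart k X.H j →ₐ[k] κ) (u : Fin q),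
    ∃ v : LogTangentVector P (X.x j), v.form (m u) (c j u) ≠ 0 ∧
      (∀ u', u' ≠ u → v.form (m u') (c j u') = 0) ∧
      ∀ t, IsPole X (n t) P → v.form (n t) (h j t) = 0

/-- The zeros of the function `h` of `f t = x ^ (n t) * h` are disjoint from the poles of
`x ^ (n t)`. -/
def IsSeparated {p : ℕ} {k K : Type} [Field k] [Field K] [Algebra k K] {N d s q : ℕ}
    {X : SmoothPair k K N d} {f : Fin s → K} {F : Fin q → K} (C : CleanData p X f F)
    (t : Fin s) : Prop :=
  ∀ j (κ : Type) [Field κ] [Algebra k κ] (P : chart k X.H j →ₐ[k] κ),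
    IsPole X (C.n t) P → P (C.h j t) ≠ 0

/-- The element `e` of the extension `K'` of `K` has smaller poles than `Φ`: at each valuation ring
`V` of `K'` which contains the coordinate ring of a chart of `X`, if `Φ` is in `V` then `e` is in
`V`, and otherwise the value of `e / Φ` is less than one. -/
def HasSmallerPoles {k K : Type} [Field k] [Field K] [Algebra k K] {N d : ℕ}
    (X : SmoothPair k K N d) {K' : Type} [Field K'] [Algebra K K'] (e Φ : K') : Prop :=
  ∀ (j : Fin (N + 1)) (V : ValuationSubring K'), (∀ a ∈ chart k X.H j, algebraMap K K' a ∈ V) →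
    (Φ ∈ V → e ∈ V) ∧ (Φ ∉ V → V.valuation e < V.valuation Φ)

/-- The towers of Artin-Schreier extensions: the intermediate field `E` of `K' / K` is constructed
from `K` by finitely many steps, and `Φ 1, ..., Φ s` are the functions over which the next step can
be taken. At the beginning `E = K` and the `Φ t` are the `f t`. A step adjoins to `E` a root `z`, not
contained in `E`, of an equation `z ^ p - z = c * (Φ t) ^ m + e`, where `c ≠ 0` is in `k`, `p ∤ m`,
`e ∈ E` has smaller poles than `(Φ t) ^ m`, and `m = 1` or `f t` is separated. Then `Φ t` is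
replaced by `z`. -/
inductive IsTower {p : ℕ} {k K K' : Type} [Field k] [Field K] [Algebra k K] [Field K']
    [Algebra k K'] [Algebra K K'] {N d s q : ℕ} {X : SmoothPair k K N d} {f : Fin s → K}
    {F : Fin q → K} (C : CleanData p X f F) : IntermediateField K K' → (Fin s → K') → Prop
  | base : IsTower C ⊥ (fun t => algebraMap K K' (f t))
  | step {E : IntermediateField K K'} {Φ : Fin s → K'} (h : IsTower C E Φ) (t : Fin s) (z e : K')
      (c : k) (m : ℕ) (he : e ∈ E) (hc : c ≠ 0) (hm : ¬ p ∣ m) (hm1 : m = 1 ∨ IsSeparated C t)
      (hz : z ^ p - z = algebraMap k K' c * Φ t ^ m + e) (hs : HasSmallerPoles X e (Φ t ^ m))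
      (hzE : z ∉ E) :
      IsTower C (E ⊔ IntermediateField.adjoin K {z}) (Function.update Φ t z)

/-- The zeros and poles of the function `g` are contained in the divisor: on the charts it is the
product of a unit and of powers of the local equations. -/
def IsBoundaryFunction {k K : Type} [Field k] [Field K] [Algebra k K] {N d : ℕ}
    (X : SmoothPair k K N d) (g : K) : Prop :=
  ∃ γ : Fin d → ℤ, ∀ j, ∃ u : (chart k X.H j)ˣ,
    g = ((u : chart k X.H j) : K) * ∏ i, (X.x j i : K) ^ γ i

/-- The elements `w 1, ..., w r` of the extension `K'` of `E` are `p`-th roots of one of the following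
two kinds.

* Every `w l ^ p` is a linear combination of the `F u` with coefficients in `k`, up to an element
  `b ^ p`, `b ∈ E`.
* The zeros and poles of the `F u` are contained in the divisor, and every `w l ^ p` is a product of
  powers of the `F u`, up to a factor `b ^ p`, `b ∈ E`, `b ≠ 0`. -/
def IsInseparablePart (p : ℕ) {k K : Type} [Field k] [Field K] [Algebra k K] {N d q : ℕ}
    (X : SmoothPair k K N d) (F : Fin q → K) {K' : Type} [Field K'] [Algebra K K']
    (E : IntermediateField K K') {r : ℕ} (w : Fin r → K') : Prop :=
  (∀ l, ∃ y ∈ Submodule.span k (Set.range F), ∃ b ∈ E, w l ^ p = algebraMap K K' y + b ^ p) ∨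
  (∀ u, IsBoundaryFunction X (F u)) ∧
    ∀ l, ∃ e : Fin q → ℤ, ∃ b ∈ E, b ≠ 0 ∧
      w l ^ p = algebraMap K K' (∏ u, F u ^ e u) * b ^ p

/-- Let `k` be a finite field of characteristic `p`, `X` a smooth projective variety over `k` with
the function field `K` and a divisor with simple normal crossings, and let `f 1, ..., f s` and
`F 1, ..., F q` be elements of `K` which are jointly clean. Let `K'` be an extension of `K` which is
generated by a field `E` constructed from `K` by a tower of Artin-Schreier extensions over the `f t`
(see `IsTower`; any number of steps can be taken over each `f t`) and by elements `w 1, ..., w r`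
which are `p`-th roots: either every `w l ^ p` is a linear combination of the `F u` with coefficients
in `k`, up to `p`-th powers of elements of `E`; or the zeros and poles of the `F u` are contained in
the divisor and every `w l ^ p` is a product of powers of the `F u`, up to factors which are `p`-th
powers of elements of `E`. Then every integral scheme `Y` of finite type over `ℤ` whose function
field is isomorphic to `K'` has a regular model proper over `ℤ`. -/
theorem result (p : ℕ) [Fact p.Prime] (k K K' : Type) [Field k] [Finite k] [CharP k p]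
    [Field K] [Algebra k K] [Field K'] [Algebra k K'] [Algebra K K'] [IsScalarTower k K K']
    (N d s q r : ℕ) (X : SmoothPair k K N d) (f : Fin s → K) (F : Fin q → K)
    (C : CleanData p X f F) (E : IntermediateField K K') (Φ : Fin s → K') (hE : IsTower C E Φ)
    (w : Fin r → K') (hw : IsInseparablePart p X F E w)
    (hgen : IntermediateField.adjoin E (Set.range w) = ⊤)
    (Y : Scheme.{0}) (_ : IsIntegral Y) (g : Y ⟶ Spec (CommRingCat.of ℤ))
    (_ : LocallyOfFiniteType g) (_ : QuasiCompact g)
    (_ : Nonempty (Y.functionField ≃+* K')) :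
    ∃ (X' : Scheme.{0}) (_ : IsIntegral X') (g' : X' ⟶ Spec (CommRingCat.of ℤ)),
      IsProper g' ∧
      (∀ x : X',
        (((Module.finrank (IsLocalRing.ResidueField (X'.presheaf.stalk x))
            (IsLocalRing.CotangentSpace (X'.presheaf.stalk x)) : ℕ∞)) : WithBot ℕ∞)
          = ringKrullDim (X'.presheaf.stalk x)) ∧
      Nonempty (X'.functionField ≃+* Y.functionField) := by
  classical
  let M : LM (⊥ : Subalgebra k K) ⊤ (Fin (N + 1)) (Fin d) :=
    Pool.Agent.TH214.pairLM X.H (fun j i => (X.x j i : K)) X.H_ne X.smooth
      (fun j i => (X.x j i).2) (fun j i h0 => X.x_ne j i (Subtype.ext h0)) X.glue (by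
        intro j κ _ _ P i hi h0
        obtain ⟨D, h1, h2⟩ := X.snc j κ P i h0
        exact ⟨⟨D.D, D.leibniz⟩, h1, fun l hl hne hl0 => h2 l hne hl0⟩)
  have hS : Pool.Agent.Run7.h802.Ct.St M f C.n (fun j t => (C.h j t : K)) (IsSeparated C) := by
    refine ⟨C.n_nonpos, fun j t => (C.h j t).2, C.eq_f, ?_, ?_⟩
    · intro j κ _ _ P t ht
      obtain ⟨i, hi, hA, h0⟩ := ht
      obtain ⟨v, hv1, hv2⟩ := C.clean_f j κ P t ⟨i, hi, h0⟩
      refine ⟨⟨⟨v.D, v.leibniz⟩, v.e, fun i hi => v.D_x i⟩, hv1, fun l hl hp => hv2 l hl ?_⟩
      obtain ⟨i', hi', hA', h0'⟩ := hp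
      exact ⟨i', hi', h0'⟩
    · intro j κ _ _ P t ht hp
      obtain ⟨i, hi, hA, h0⟩ := hp
      exact ht j κ P ⟨i, hi, h0⟩
  have hT0 : ∀ (E : IntermediateField K K') (Φ : Fin s → K'), IsTower C E Φ →
      Pool.Agent.Run7.h802.Ct.Twr p M.A f (IsSeparated C) E Φ := by
    intro E Φ hE
    induction hE with
    | base => exact .base
    | step h t z e c m he hc hm hm1 hz hs hzE ih =>
      exact .step ih t z e c m he hc hm hm1 hz (fun j V hV => hs j V hV) hzE
  have hT := hT0 E Φ hE
  have hfn : ∀ g : K, IsBoundaryFunction X g → ∃ γ : Fin d → ℤ, ∀ j : Fin (N + 1), ∃ w,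
      w ≠ 0 ∧ w ∈ M.A j ∧ w⁻¹ ∈ M.A j ∧ g = w * ∏ i, M.x j i ^ γ i := by
    rintro g ⟨γ, hγ⟩
    refine ⟨γ, fun j => ?_⟩
    obtain ⟨u, hu⟩ := hγ j
    refine ⟨((u : chart k X.H j) : K), ?_, ((u : chart k X.H j)).2, ?_, hu⟩
    · intro h0
      exact u.ne_zero (Subtype.ext h0)
    · have h1 : ((u : chart k X.H j) : K)⁻¹ = ((u⁻¹ : (chart k X.H j)ˣ) : K) := by
        refine inv_eq_of_mul_eq_one_right ?_
        have h2 := congrArg (fun z : chart k X.H j => (z : K)) u.mul_inv
        exact h2
      rw [h1]
      exact ((u⁻¹ : (chart k X.H j)ˣ) : chart k X.H j).2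
  have hR : Frc M := by
    intro j z
    have := X.isFractionRing j
    obtain ⟨a', b', hb', rfl⟩ := IsFractionRing.div_surjective (A := chart k X.H j) z
    exact ⟨a', a'.2, b', b'.2, fun h0 => nonZeroDivisors.ne_zero hb' (Subtype.ext h0),
      div_eq_mul_inv _ _⟩
  have hG : Fn M (fun b : PEmpty => (b.elim : K)) (fun b => b.elim) := fun b => b.elim
  have hln : ∀ j (κ : Type) [Field κ] [Algebra k κ] (ψ : M.A j →ₐ[k] κ) (u : Fin q),
      ∃ v : Pool.Agent.W558.LT ψ (M.x j), Pool.Agent.W558.om v (C.m u) (C.c j u).2 ≠ 0 ∧
        (∀ l, l ≠ u → Pool.Agent.W558.om v (C.m l) (C.c j l).2 = 0) ∧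
        ∀ t, Pool.Agent.H176.Mix.Pole M j ψ (C.n t) →
          Pool.Agent.W558.om v (C.n t) (hS.hA j t) = 0 := by
    intro j κ _ _ P u
    obtain ⟨v, h1, h2, h3⟩ := C.clean_F j κ P u
    exact ⟨⟨⟨v.D, v.leibniz⟩, v.e, fun i hi => v.D_x i⟩, h1, h2, h3⟩
  obtain ⟨T, I, hT', hI, M', hR'⟩ : ∃ (T I : Type) (_ : Finite T) (_ : Fintype I)
      (M' : LM (⊥ : Subalgebra k K') ⊤ T I), Frc M' := by
    rcases hw with hw | ⟨hFb, hw⟩
    · obtain ⟨T, I, hT', hI, M', Γ', hF', hR', hD'⟩ := Pool.Agent.Run7.h802.Ct.model_ct (p := p) hS
        hG hR (Fu := F) (m := C.m) (b := C.b) (c := fun j u => (C.c j u : K))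
        (fun j u => (C.c j u).2) C.eq_F hln hT w (Or.inl fun l => by
          obtain ⟨y, hy, b, hb, hwb⟩ := hw l
          obtain ⟨lam, hlam⟩ := (Submodule.mem_span_range_iff_exists_fun k).1 hy
          refine ⟨lam, b, hb, ?_⟩
          rw [hwb, ← hlam]
          simp only [Algebra.smul_def]) hgen
      exact ⟨T, I, hT', hI, M', hR'⟩
    · choose δ hδ using fun u => hfn _ (hFb u)
      have hG2 : Fn M (Sum.elim (fun b : PEmpty => (b.elim : K)) F)
          (Sum.elim (fun b : PEmpty => (b.elim : Fin d → ℤ)) δ) := by
        rintro (b | u)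
        · exact b.elim
        · exact hδ u
      have hF0 : ∀ u, F u ≠ 0 := by
        intro u
        obtain ⟨w', hw0, -, -, h1⟩ := hδ u 0
        rw [h1]
        exact mul_ne_zero hw0 (Finset.prod_ne_zero_iff.2 fun i _ => zpow_ne_zero _ (M.x0 0 i))
      obtain ⟨T, I, hT', hI, M', Γ', hF', hR', hD'⟩ := Pool.Agent.Run7.h802.Ct.model_ct (p := p) hS
        hG2 hR (Fu := F) (m := C.m) (b := C.b) (c := fun j u => (C.c j u : K))
        (fun j u => (C.c j u).2) C.eq_F hln hT w
        (Or.inr ⟨fun u => ⟨Sum.inr u, rfl⟩, hF0, hw⟩) hgen
      exact ⟨T, I, hT', hI, M', hR'⟩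
  obtain ⟨X', hX', g', h1, h2, ⟨h3⟩⟩ := Pool.Agent.W418.Z.regular_of_LM M' (fun t x => by
    obtain ⟨a, ha, b, hb, hb0, h⟩ := hR' t x
    exact ⟨a, ha, b, hb, hb0, by rw [h, div_eq_mul_inv]⟩)
  obtain ⟨ε⟩ := ‹Nonempty (Y.functionField ≃+* K')›
  exact ⟨X', hX', g', h1, h2, ⟨h3.trans ε.symm⟩⟩

end Pool.Agent.Results.MP_4d1008_ag.IteratedCleanTowers
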