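import Pool.Agent.Run7.h802.HP.HasMod

/-!
MP_4d1008_ag: for a positive proportion of the hypersurfaces of each degree `d ≥ 3` and each
dimension `n ≥ 1` over the rational numbers, ordered by the height of the coefficients, every
integral scheme of finite type over `ℤ` birational to the hypersurface, or to its base change to
any number field, is birational to a regular integral scheme proper over `ℤ`.

The forms of degree `d` in `n + 2` variables with integral coefficients in the box `[-H, H]` are
counted. The result is unconditional.

1. There is `δ > 0` such that for all large `H` the proportion of the forms in the box which define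
   such a smooth hypersurface is at least `δ`.
2. Good reduction at the small primes suffices for all but an arbitrarily small proportion: for
   every `ε > 0` there is `B` such that for every modulus `Q` divisible by the primes up to `B` and
   every residue class modulo `Q` of forms with good reduction at the primes dividing `Q`, the
   proportion of the forms in the class which define such a smooth hypersurface is at least
   `1 - ε` for all large `H`.

Proof: the forms having a singular zero modulo `p`, but not exactly one, rational and nondegenerate,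
are contained modulo `p` in a subset of codimension two independent of `p`, so by the sieve of
Ekedahl few forms meet it for some large prime `p`. In the remaining case the closure of the
hypersurface in the projective space over the integers is resolved by blowing up the nodes
repeatedly; the value of the form at the critical point may be divisible by any power of `p`.
-/

set_option autoImplicit false

open AlgebraicGeometry CategoryTheory CategoryTheory.Limits MvPolynomial

namespace Pool.Agent.Results.MP_4d1008_ag.PositiveProportion

/-- The exponents of the monomials of degree `d` in the variables `X_0, ..., X_(n+1)`. -/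
abbrev Exponent (n d : ℕ) : Type := {m : Fin (n + 2) → Fin (d + 1) // ∑ i, (m i : ℕ) = d}

/-- The form of degree `d` with the coefficients `a`. -/
noncomputable def form {R : Type} [CommRing R] {n d : ℕ} (a : Exponent n d → R) :
    MvPolynomial (Fin (n + 2)) R :=
  ∑ m, C (a m) * ∏ i, X i ^ ((m.1 i : Fin (d + 1)) : ℕ)

/-- The form with the integral coefficients `a`, over the ring `R`. -/
noncomputable def formOver (R : Type) [CommRing R] {n d : ℕ} (a : Exponent n d → ℤ) :
    MvPolynomial (Fin (n + 2)) R :=
  form fun m => ((a m : ℤ) : R)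

/-- `x` is a zero of the form and of all its partial derivatives. -/
def IsSingularZero {k : Type} [Field k] {n d : ℕ} (a : Exponent n d → ℤ) (x : Fin (n + 2) → k) :
    Prop :=
  eval x (formOver k a) = 0 ∧ ∀ i, eval x (pderiv i (formOver k a)) = 0

/-- The hypersurface over the rational numbers is smooth. -/
def IsSmooth {n d : ℕ} (a : Exponent n d → ℤ) : Prop :=
  ∀ (k : Type) [Field k] [CharZero k] (x : Fin (n + 2) → k), IsSingularZero a x → x = 0

/-- The hypersurface modulo `p` is smooth. -/
def HasGoodReduction {n d : ℕ} (a : Exponent n d → ℤ) (p : ℕ) : Prop :=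
  ∀ (k : Type) [Field k] [CharP k p] (x : Fin (n + 2) → k), IsSingularZero a x → x = 0

/-- `F` is the function field over `K` of the hypersurface `G = 0`: it is generated by the
coordinates `x 0 = 1, x 1, ..., x (n + 1)`, which satisfy the equation `G = 0`, and has transcendence
degree `n`. -/
def IsFunctionField (K : Type) [Field K] {n : ℕ} (G : MvPolynomial (Fin (n + 2)) K) (F : Type)
    [Field F] [Algebra K F] : Prop :=
  ∃ (x : Fin (n + 2) → F) (b : Fin n → F), x 0 = 1 ∧ aeval x G = 0 ∧
    IntermediateField.adjoin K (Set.range x) = ⊤ ∧ IsTranscendenceBasis K b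

/-- There is a regular integral scheme, proper over `ℤ`, birational to `Y`. -/
def HasRegularProperModel (Y : Scheme.{0}) [IsIntegral Y] : Prop :=
  ∃ (X' : Scheme.{0}) (_ : IsIntegral X') (g : X' ⟶ Spec (CommRingCat.of ℤ)),
    IsProper g ∧
    (∀ x : X',
      (((Module.finrank (IsLocalRing.ResidueField (X'.presheaf.stalk x))
          (IsLocalRing.CotangentSpace (X'.presheaf.stalk x)) : ℕ∞)) : WithBot ℕ∞)
        = ringKrullDim (X'.presheaf.stalk x)) ∧
    Nonempty (X'.functionField ≃+* Y.functionField)

/-- The form with the integral coefficients `a` defines a smooth hypersurface over the rational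
numbers, and for every number field `K` the following holds: every integral scheme of finite type
over `ℤ` which has the function field of the hypersurface over `K` given by the form is birational
to a regular integral scheme proper over `ℤ`. -/
def IsGood {n d : ℕ} (a : Exponent n d → ℤ) : Prop :=
  IsSmooth a ∧ ∀ (K : Type) [Field K] [NumberField K] (F : Type) [Field F] [Algebra K F],
    IsFunctionField K (formOver K a) F →
    ∀ (Y : Scheme.{0}) [IsIntegral Y] (s : Y ⟶ Spec (CommRingCat.of ℤ)),
      LocallyOfFiniteType s → QuasiCompact s → Nonempty (Y.functionField ≃+* F) →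
      HasRegularProperModel Y

/-- The number of all families of coefficients in the box `[-H, H]`. -/
noncomputable def boxCard (n d H : ℕ) : ℝ :=
  (Nat.card {a : Exponent n d → ℤ // ∀ m, |a m| ≤ H} : ℝ)

theorem boxCard_eq (n d H : ℕ) :
    boxCard n d H = (2 * (H : ℝ) + 1) ^ Fintype.card (Exponent n d) := by
  rw [← Pool.Agent.Run7.h796.HP.card_box (σ := Exponent n d) H]
  unfold boxCard
  have h : {a : Exponent n d → ℤ | ∀ m, |a m| ≤ H} =
      (Pool.Agent.Run7.h796.HP.box (Exponent n d) H : Set (Exponent n d → ℤ)) := by
    ext a
    simp [Pool.Agent.Run7.h796.HP.mem_box]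
  change ((Nat.card ({a : Exponent n d → ℤ | ∀ m, |a m| ≤ H} : Set _) : ℕ) : ℝ) = _
  rw [Nat.card_coe_set_eq, h, Set.ncard_coe_finset]

theorem result :
    (∀ n d : ℕ, 1 ≤ n → 3 ≤ d → ∃ δ : ℝ, 0 < δ ∧ ∃ H₀ : ℕ, ∀ H : ℕ, H₀ ≤ H →
      δ * boxCard n d H ≤
        (Nat.card {a : Exponent n d → ℤ // (∀ m, |a m| ≤ H) ∧ IsGood a} : ℝ)) ∧
    (∀ n d : ℕ, 1 ≤ n → 3 ≤ d → ∀ ε : ℝ, 0 < ε → ∃ B : ℕ, ∀ Q : ℕ, 0 < Q →
      (∀ p : ℕ, p.Prime → p ≤ B → p ∣ Q) →
      ∀ c : Exponent n d → ℤ, (∀ p : ℕ, p.Prime → p ∣ Q → HasGoodReduction c p) →
      ∃ H₀ : ℕ, ∀ H : ℕ, H₀ ≤ H → (1 - ε) * boxCard n d H ≤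
        (Nat.card {b : Exponent n d → ℤ // (∀ m, |b m| ≤ H) ∧
          IsGood fun m => c m + Q * b m} : ℝ)) := by
  have key : ∀ n d : ℕ, 1 ≤ n → 3 ≤ d → ∀ a : Exponent n d → ℤ,
      Pool.Agent.Run7.h802.HP.GenSmooth a →
      (∀ p : ℕ, p.Prime → Pool.Agent.Run7.h802.HP.GoodAt a p ∨
        Pool.Agent.Run7.h802.HP.NodeAt a p) → IsGood a := by
    intro n d hn hd a hs hp
    refine ⟨hs, ?_⟩
    rintro K _ _ F _ _ ⟨x, b, hx0, hrel, hgen, htb⟩ Y _ s _ _ ⟨e⟩
    obtain ⟨X', hX', g, hg, hreg, ⟨e'⟩⟩ :=
      Pool.Agent.Run7.h802.HP.model_ff hn (Pool.Agent.Run7.h802.HP.formR K a) d (by omega)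
        (Pool.Agent.Run7.h802.HP.formR_hom K a)
        (Pool.Agent.Run7.h802.HP.smooth_of (by omega) a hs)
        (Pool.Agent.Run7.h802.HP.locReg2_of a hp) x hx0 hrel hgen b htb
    exact ⟨X', hX', g, hg, hreg, ⟨e'.trans e.symm⟩⟩
  simp only [boxCard_eq]
  refine ⟨?_, ?_⟩
  · intro n d hn hd
    exact (Pool.Agent.Run7.h802.HP.allDens n d hn hd IsGood (key n d hn hd)).2
  · intro n d hn hd
    exact (Pool.Agent.Run7.h802.HP.allDens n d hn hd IsGood (key n d hn hd)).1

end Pool.Agent.Results.MP_4d1008_ag.PositiveProportion
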