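import Pool.Agent.Run7.h275.S.FD
import Pool.Agent.Run7.h594.SC.VVV

/-!
# Regular models over the integers for which all arcs extend
-/

set_option autoImplicit false
set_option linter.unusedVariables false

namespace Pool.Agent.Results.MP_4d1008_ag.RegularModelsDiscreteValuations

open AlgebraicGeometry CategoryTheory

/-- The complement of the open set `U` is a divisor with strict normal crossings at the point `x`, or does not contain `x`: there
are generators of the maximal ideal of the local ring at `x`, as many as the dimension, such that the complement of `U` is defined in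
the spectrum of the local ring by the product of some of them. -/
def SNCAt {Y : Scheme.{0}} (U : Y.Opens) (x : Y) : Prop :=
  ∃ (d : ℕ) (t : Fin d → Y.presheaf.stalk x) (J : Finset (Fin d)),
    Ideal.span (Set.range t) = IsLocalRing.maximalIdeal (Y.presheaf.stalk x) ∧
    ringKrullDim (Y.presheaf.stalk x) = d ∧
    ∀ z : Spec (Y.presheaf.stalk x), Y.fromSpecStalk x z ∈ U ↔
      ∀ j ∈ J, t j ∉ (show PrimeSpectrum (Y.presheaf.stalk x) from z).asIdeal

/-- **Theorem.** Every integral scheme `X` of finite type over the integers has the same function field as an integral scheme `X'`,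
separated and locally of finite type over the integers, all of whose local rings are regular, and which satisfies the valuative
criterion of properness for all discrete valuation rings `R` and all morphisms from the spectrum of the fraction field of `R` to a
nonempty quasi-compact open set `U`, whose complement is a divisor with strict normal crossings: they extend uniquely to
`Spec R`. -/
theorem result :
    ∀ (X : Scheme.{0}) (_ : IsIntegral X) (f : X ⟶ Spec (CommRingCat.of ℤ)),
      LocallyOfFiniteType f → QuasiCompact f →
      ∃ (X' : Scheme.{0}) (_ : IsIntegral X') (g : X' ⟶ Spec (CommRingCat.of ℤ)),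
        IsSeparated g ∧ LocallyOfFiniteType g ∧
        (∀ x : X',
          (((Module.finrank (IsLocalRing.ResidueField (X'.presheaf.stalk x))
              (IsLocalRing.CotangentSpace (X'.presheaf.stalk x)) : ℕ∞)) : WithBot ℕ∞)
            = ringKrullDim (X'.presheaf.stalk x)) ∧
        Nonempty (X'.functionField ≃+* X.functionField) ∧
        ∃ U : X'.Opens, U ≠ ⊥ ∧ IsCompact (U : Set X') ∧ (∀ x : X', SNCAt U x) ∧
          ∀ (R : Type) [CommRing R] [IsDomain R] [IsDiscreteValuationRing R]
            (γ : Spec (CommRingCat.of (FractionRing R)) ⟶ X'), (∀ z, γ z ∈ U) →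
            ∃! β : Spec (CommRingCat.of R) ⟶ X',
              Spec.map (CommRingCat.ofHom (algebraMap R (FractionRing R))) ≫ β = γ := by
  intro X hX f hf1 hf2
  obtain ⟨Y, hY, g, h1, h2, h3, h4, U, h5, h6, h7, h8⟩ :=
    Pool.Agent.Run7.h275.SC.t_MAINZ Pool.Agent.Run7.h594.SC.t_UEQ X hX f hf1 hf2
  refine ⟨Y, hY, g, h1, h2, ?_, h4, U, h5, h6, ?_, ?_⟩
  · intro x
    have := h3 x
    exact (IsRegularLocalRing.iff_finrank_cotangentSpace _).1 inferInstance
  · intro x
    obtain ⟨d, t, J, h9, h10, h11⟩ := h7 x
    refine ⟨d, t, J, h9, h10, fun z => ?_⟩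
    have := h11 z
    rwa [Category.comp_id] at this
  · intro R _ _ _ γ hγ
    obtain ⟨β, hβ⟩ := h8 R γ hγ
    refine ⟨β, hβ, fun β' hβ' => ?_⟩
    have hd : IsDominant (Spec.map (CommRingCat.ofHom (algebraMap R (FractionRing R)))) := by
      refine ⟨?_⟩
      refine (PrimeSpectrum.denseRange_comap_iff_ker_le_nilRadical (algebraMap R (FractionRing R))).2 ?_
      rw [(RingHom.injective_iff_ker_eq_bot _).1 (IsFractionRing.injective R (FractionRing R))]
      exact bot_le
    exact ext_of_isDominant_of_isSeparated g (specZIsTerminal.hom_ext _ _)
      (Spec.map (CommRingCat.ofHom (algebraMap R (FractionRing R)))) (hβ'.trans hβ.symm)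

end Pool.Agent.Results.MP_4d1008_ag.RegularModelsDiscreteValuations
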